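import Pool.Agent.Helper36.JJ.Defs

/-!
# JJ-3: the counting lemma
-/

namespace Pool.Agent.Helper36.JJ

open Finset Module
open Pool.Agent.Helper36.Pin

variable {V : Type} [Fintype V] [DecidableEq V]

/-- an edge between two parts of a connected induced subgraph -/
private theorem j3_cross {G : SimpleGraph V} {X T S : Finset V}
    (hc : (G.induce ((X \ T : Finset V) : Set V)).Connected) {a b : V}
    (ha : a ∈ X \ T) (hb : b ∈ X \ T) (haS : a ∈ S) (hbS : b ∉ S) :
    ∃ u w, u ∈ X \ T ∧ w ∈ X \ T ∧ u ∈ S ∧ w ∉ S ∧ G.Adj u w := by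
  obtain ⟨p⟩ := hc.preconnected ⟨a, by simpa using ha⟩ ⟨b, by simpa using hb⟩
  obtain ⟨d, -, hd1, hd2⟩ := p.exists_boundary_dart {x | (x : V) ∈ S} haS hbS
  refine ⟨d.fst, d.snd, ?_, ?_, hd1, hd2, ?_⟩
  · have := d.fst.2
    simpa using this
  · have := d.snd.2
    simpa using this
  · have := d.adj
    simpa using this

private theorem j3_deg {G : SimpleGraph V} {X : Finset V} (h3 : ThreeConn G X) {v : V}
    (hv : v ∈ X) : 3 ≤ (nb G X v).card := by
  by_contra hcon
  push Not at hcon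
  have hsub : nb G X v ⊆ X := fun w hw => (mem_nb.mp hw).1
  have hc := h3.2 (nb G X v) hsub (by omega)
  have hvn : v ∉ nb G X v := fun h => G.irrefl (mem_nb.mp h).2
  have hcard : 1 < (X \ nb G X v).card := by
    rw [card_sdiff_of_subset hsub]
    have := h3.1
    omega
  obtain ⟨y, hy, hyv⟩ := exists_mem_ne hcard v
  obtain ⟨u, w, hu, hw, huS, hwS, huw⟩ := j3_cross hc (S := {v})
    (mem_sdiff.mpr ⟨hv, hvn⟩) hy (mem_singleton_self v) (by simpa using hyv)
  rw [mem_singleton] at huS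
  subst huS
  exact (mem_sdiff.mp hw).2 (mem_nb.mpr ⟨(mem_sdiff.mp hw).1, huw⟩)

theorem counting (G : SimpleGraph V) (X : Finset V) (h3 : ThreeConn G X)
    (𝒵 : Finset (Finset V)) (F : Finset (Sym2 V)) (N : Finset V) (hN : N.card ≤ 3)
    (hNX : N ⊆ X) (hF : F ⊆ N.sym2) (hFG : F ⊆ edges G)
    (h4 : ∀ Z ∈ 𝒵, 4 ≤ Z.card ∧ Z ⊆ X ∧ Z ≠ X)
    (hcov : ∀ u ∈ X, ∀ w ∈ X, G.Adj u w → s(u, w) ∈ F ∨ ∃ Z ∈ 𝒵, u ∈ Z ∧ w ∈ Z)
    (hsum : ∑ Z ∈ 𝒵, (2 * Z.card - 3) + F.card + 3 = 2 * X.card) : False := by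
  classical
  set b : V → ℕ := fun w => (𝒵.filter (fun Z => w ∈ Z)).card with hb
  set d : V → ℕ := fun w => (F.filter (fun e => w ∈ e)).card with hd
  set A : Finset V → Finset V := fun Z => Z.filter (fun w => 2 ≤ b w ∨ 1 ≤ d w) with hA
  -- elements of F
  have hdN : ∀ w, 1 ≤ d w → w ∈ N := by
    intro w hw
    obtain ⟨e, he⟩ := card_pos.mp hw
    rw [mem_filter] at he
    exact mem_sym2_iff.mp (hF he.1) w he.2
  -- b is positive
  have hb1 : ∀ w ∈ X, 1 ≤ b w := by
    intro w hw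
    by_contra hcon
    have h0 : b w = 0 := by omega
    rw [hb] at h0
    simp only [card_eq_zero, filter_eq_empty_iff] at h0
    have hsub : nb G X w ⊆ N.erase w := by
      intro u hu
      obtain ⟨huX, huw⟩ := mem_nb.mp hu
      rcases hcov w hw u huX huw with h | ⟨Z, hZ, hwZ, -⟩
      · rw [mem_erase]
        exact ⟨huw.ne', mem_sym2_iff.mp (hF h) u (Sym2.mem_mk_right w u)⟩
      · exact absurd hwZ (h0 hZ)
    have hdeg := j3_deg h3 hw
    by_cases hwN : w ∈ N
    · have := card_le_card hsub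
      rw [card_erase_of_mem hwN] at this
      omega
    · obtain ⟨u, hu⟩ := card_pos.mp (show 0 < (nb G X w).card by omega)
      obtain ⟨huX, huw⟩ := mem_nb.mp hu
      rcases hcov w hw u huX huw with h | ⟨Z, hZ, hwZ, -⟩
      · exact hwN (mem_sym2_iff.mp (hF h) w (Sym2.mem_mk_left w u))
      · exact absurd hwZ (h0 hZ)
  -- three attachments
  have hA3 : ∀ Z ∈ 𝒵, 3 ≤ (A Z).card := by
    intro Z hZ
    obtain ⟨z1, z2, z3⟩ := h4 Z hZ
    by_contra hcon
    have hAZ : A Z ⊆ Z := filter_subset _ _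
    have hc := h3.2 (A Z) (hAZ.trans z2) (by omega)
    have hcard : 0 < (Z \ A Z).card := by
      rw [card_sdiff_of_subset hAZ]
      omega
    obtain ⟨x, hx⟩ := card_pos.mp hcard
    obtain ⟨y, hyX, hyZ⟩ : ∃ y ∈ X, y ∉ Z := by
      by_contra hh
      push Not at hh
      exact z3 (Subset.antisymm z2 hh)
    rw [mem_sdiff] at hx
    obtain ⟨u, w, hu, hw, huS, hwS, huw⟩ := j3_cross hc (S := Z)
      (mem_sdiff.mpr ⟨z2 hx.1, hx.2⟩) (mem_sdiff.mpr ⟨hyX, fun h => hyZ (hAZ h)⟩) hx.1 hyZ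
    rw [mem_sdiff] at hu hw
    apply hu.2
    simp only [hA, mem_filter]
    refine ⟨huS, ?_⟩
    rcases hcov u hu.1 w hw.1 huw with h | ⟨Z', hZ', huZ', hwZ'⟩
    · right
      exact card_pos.mpr ⟨s(u, w), mem_filter.mpr ⟨h, Sym2.mem_mk_left u w⟩⟩
    · left
      have hne : Z ≠ Z' := by rintro rfl; exact hwS hwZ'
      have : ({Z, Z'} : Finset (Finset V)) ⊆ 𝒵.filter (fun Z => u ∈ Z) := by
        intro Y hY
        rw [mem_insert, mem_singleton] at hY
        rcases hY with h | h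
        · rw [h]; exact mem_filter.mpr ⟨hZ, huS⟩
        · rw [h]; exact mem_filter.mpr ⟨hZ', huZ'⟩
      have := card_le_card this
      rwa [card_pair hne] at this
  -- double counting
  have hs1 : ∑ w ∈ X, b w = ∑ Z ∈ 𝒵, Z.card := by
    have e1 : ∀ w, b w = ∑ Z ∈ 𝒵, if w ∈ Z then 1 else 0 := by
      intro w; simp only [hb, card_filter]
    simp only [e1]
    rw [sum_comm]
    apply sum_congr rfl
    intro Z hZ
    rw [← card_filter]
    congr 1
    ext w
    rw [mem_filter]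
    exact ⟨fun h => h.2, fun h => ⟨(h4 Z hZ).2.1 h, h⟩⟩
  have hs2 : ∑ w ∈ X, d w = 2 * F.card := by
    have e1 : ∀ w, d w = ∑ e ∈ F, if w ∈ e then 1 else 0 := by
      intro w; simp only [hd, card_filter]
    simp only [e1]
    rw [sum_comm]
    have e2 : ∀ e ∈ F, (∑ w ∈ X, if w ∈ e then 1 else 0) = 2 := by
      intro e he
      have hee := hFG he
      have heN := hF he
      unfold edges at hee
      rw [mem_filter] at hee
      revert he hee heN
      refine Sym2.ind (fun x y => ?_) e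
      intro he hee heN
      have hne : x ≠ y := (SimpleGraph.mem_edgeSet G).mp hee.2 |>.ne
      rw [← card_filter]
      have : X.filter (fun w => w ∈ s(x, y)) = {x, y} := by
        ext w
        rw [mem_filter, Sym2.mem_iff, mem_insert, mem_singleton]
        constructor
        · exact fun h => h.2
        · intro h
          refine ⟨hNX ?_, h⟩
          exact mem_sym2_iff.mp heN w (Sym2.mem_iff.mpr h)
      rw [this, card_pair hne]
    rw [sum_congr rfl e2, sum_const, smul_eq_mul, mul_comm]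
  have hs3 : ∑ w ∈ X, (if 2 ≤ b w ∨ 1 ≤ d w then b w else 0) = ∑ Z ∈ 𝒵, (A Z).card := by
    have e1 : ∀ w, (if 2 ≤ b w ∨ 1 ≤ d w then b w else 0) =
        ∑ Z ∈ 𝒵, if w ∈ A Z then 1 else 0 := by
      intro w
      rw [← card_filter]
      by_cases h : 2 ≤ b w ∨ 1 ≤ d w
      · rw [if_pos h]
        simp only [hb]
        congr 1
        apply filter_congr
        intro Z _
        simp only [hA, mem_filter, h, and_true]
      · rw [if_neg h]
        symm
        rw [card_eq_zero, filter_eq_empty_iff]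
        intro Z _ hw
        simp only [hA, mem_filter] at hw
        exact h hw.2
    simp only [e1]
    rw [sum_comm]
    apply sum_congr rfl
    intro Z hZ
    rw [← card_filter]
    congr 1
    ext w
    rw [mem_filter]
    exact ⟨fun h => h.2, fun h => ⟨(h4 Z hZ).2.1 (filter_subset _ _ h), h⟩⟩
  have hs4 : 3 * 𝒵.card ≤ ∑ Z ∈ 𝒵, (A Z).card := by
    calc 3 * 𝒵.card = ∑ _Z ∈ 𝒵, 3 := by rw [sum_const, smul_eq_mul, mul_comm]
      _ ≤ _ := sum_le_sum hA3
  have hs5 : ∑ w ∈ X, (if w ∈ N then 1 else 0) ≤ 3 := by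
    rw [← card_filter]
    refine le_trans (card_le_card ?_) hN
    intro w hw
    exact (mem_filter.mp hw).2
  have hpt : ∀ w ∈ X, 2 * (if 2 ≤ b w ∨ 1 ≤ d w then b w else 0) + 4 ≤
      4 * b w + d w + (if w ∈ N then 1 else 0) := by
    intro w hw
    have h1 := hb1 w hw
    by_cases h2 : 2 ≤ b w
    · rw [if_pos (Or.inl h2)]; omega
    · by_cases h5 : 1 ≤ d w
      · rw [if_pos (Or.inr h5), if_pos (hdN w h5)]; omega
      · rw [if_neg (by omega)]; omega
  have hs6 := sum_le_sum hpt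
  simp only [sum_add_distrib, ← mul_sum, sum_const, smul_eq_mul] at hs6
  have hs7 : ∑ Z ∈ 𝒵, (2 * Z.card - 3) + 3 * 𝒵.card = 2 * ∑ Z ∈ 𝒵, Z.card := by
    calc _ = ∑ Z ∈ 𝒵, (2 * Z.card - 3 + 3) := by
          rw [sum_add_distrib, sum_const, smul_eq_mul, mul_comm]
      _ = ∑ Z ∈ 𝒵, 2 * Z.card := by
          apply sum_congr rfl
          intro Z hZ
          have := (h4 Z hZ).1
          omega
      _ = _ := by rw [mul_sum]
  rw [hs1, hs2, hs3] at hs6
  omega

end Pool.Agent.Helper36.JJ
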